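import Pool.Agent.Helper74.Clique.Graph

/-!
The graph with one more control vertex `none` on each side: the clique of `(none, none)` has the empty set
of variables; the edge between the two control vertices carries a constant which is chosen after the
polynomial.
-/
namespace Clique2
open Finset MvPolynomial Clique

section

variable (m : ℕ) (A U : Type)

/-- the vertices -/
abbrev V : Type := (Bool × (Option (Y m A) ⊕ (B m × Option A))) ⊕ U

variable {m A U}

/-- the group of a vertex -/
def grp : V m A U → Gp m U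
  | Sum.inl (s, Sum.inl _) => Sum.inl (s, none)
  | Sum.inl (s, Sum.inr (g, _)) => Sum.inl (s, some g)
  | Sum.inr u => Sum.inr u

/-- the value of the column `g` chosen by the control vertex -/
def vl (y : Option (Y m A)) (g : B m) : Option A := y.elim none fun y => Clique.vl y g

/-- a control vertex and a bit vertex which are not adjacent -/
def inc : V m A U → V m A U → Prop
  | Sum.inl (s, Sum.inl y), Sum.inl (s', Sum.inr (g, b)) => s = s' ∧ b ≠ vl y g
  | _, _ => False

/-- not adjacent -/
def bad (v w : V m A U) : Prop := grp v = grp w ∨ inc v w ∨ inc w v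

theorem bad_comm (v w : V m A U) : bad v w ↔ bad w v := by
  unfold bad
  constructor
  · rintro (h | h | h)
    · exact Or.inl h.symm
    · exact Or.inr (Or.inr h)
    · exact Or.inr (Or.inl h)
  · rintro (h | h | h)
    · exact Or.inl h.symm
    · exact Or.inr (Or.inr h)
    · exact Or.inr (Or.inl h)

/-- the weight of an ordered pair: a variable for (left bit vertex, right bit vertex), a constant for
(left control vertex, right control vertex) -/
noncomputable def ve (s : Option (Y m A) → Option (Y m A) → ℂ) :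
    V m A U → V m A U → MvPolynomial (Y m A × Y m A) ℂ
  | Sum.inl (false, Sum.inr (g, some α)), Sum.inl (true, Sum.inr (h, some β)) => X ((g, α), (h, β))
  | Sum.inl (false, Sum.inl y), Sum.inl (true, Sum.inl y') => C (s y y')
  | _, _ => 1

theorem ve_cases (s : Option (Y m A) → Option (Y m A) → ℂ) (v w : V m A U) : ve s v w = 1 ∨
    (∃ y y', v = Sum.inl (false, Sum.inl y) ∧ w = Sum.inl (true, Sum.inl y')) ∨
    (∃ x : Y m A × Y m A, v = Sum.inl (false, Sum.inr (x.1.1, some x.1.2)) ∧
      w = Sum.inl (true, Sum.inr (x.2.1, some x.2.2))) := by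
  rcases v with ⟨_ | _, y | ⟨g, _ | α⟩⟩ | u <;> rcases w with ⟨_ | _, y' | ⟨g', _ | β⟩⟩ | u' <;>
    simp [ve]

/-- the weight of a pair -/
noncomputable def pw (s : Option (Y m A) → Option (Y m A) → ℂ) (v w : V m A U) :
    MvPolynomial (Y m A × Y m A) ℂ :=
  open Classical in if bad v w then 0 else ve s v w * ve s w v

theorem pw_comm (s : Option (Y m A) → Option (Y m A) → ℂ) (v w : V m A U) : pw s v w = pw s w v := by
  unfold pw
  by_cases h : bad v w
  · rw [if_pos h, if_pos ((bad_comm v w).1 h)]
  · rw [if_neg h, if_neg (fun h' => h ((bad_comm v w).2 h')), mul_comm]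

/-- the weight of an edge -/
noncomputable def psi (s : Option (Y m A) → Option (Y m A) → ℂ) :
    Sym2 (V m A U) → MvPolynomial (Y m A × Y m A) ℂ := Sym2.lift ⟨pw s, pw_comm s⟩

/-- the choice on a side -/
def sd (κ : Option (Y m A) × Option (Y m A)) (s : Bool) : Option (Y m A) := if s then κ.2 else κ.1

/-- the section -/
def sec (κ : Option (Y m A) × Option (Y m A)) : Gp m U → V m A U
  | Sum.inl (s, none) => Sum.inl (s, Sum.inl (sd κ s))
  | Sum.inl (s, some g) => Sum.inl (s, Sum.inr (g, vl (sd κ s) g))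
  | Sum.inr u => Sum.inr u

theorem grp_sec (κ : Option (Y m A) × Option (Y m A)) (γ : Gp m U) : grp (sec κ γ) = γ := by
  rcases γ with ⟨s, _ | g⟩ | u <;> rfl

theorem sec_inj (κ : Option (Y m A) × Option (Y m A)) : Function.Injective (sec κ : Gp m U → V m A U) :=
  Function.LeftInverse.injective (grp_sec κ)

theorem not_inc_sec (κ : Option (Y m A) × Option (Y m A)) (γ γ' : Gp m U) :
    ¬ inc (sec κ γ) (sec κ γ' : V m A U) := by
  rcases γ with ⟨s, _ | g⟩ | u <;> rcases γ' with ⟨s', _ | g'⟩ | u' <;>
    simp only [sec, inc, not_false_iff, not_and, not_not]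
  rintro rfl
  rfl

theorem not_bad_sec (κ : Option (Y m A) × Option (Y m A)) (γ γ' : Gp m U) (h : γ ≠ γ') :
    ¬ bad (sec κ γ) (sec κ γ' : V m A U) := by
  rintro (h1 | h1 | h1)
  · rw [grp_sec, grp_sec] at h1
    exact h h1
  · exact not_inc_sec κ γ γ' h1
  · exact not_inc_sec κ γ' γ h1

end

section

variable {m : ℕ} {A U : Type} [Fintype A] [Fintype U] [DecidableEq A] [DecidableEq U]

instance instDecEqV (m : ℕ) (A U : Type) [DecidableEq A] [DecidableEq U] : DecidableEq (V m A U) := by
  have i1 : DecidableEq (B m) := inferInstance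
  have i2 : DecidableEq (Y m A) := inferInstance
  have i3 : DecidableEq (Option (Y m A)) := inferInstance
  have i4 : DecidableEq (B m × Option A) := inferInstance
  exact inferInstance

/-- the clique -/
def DD (U : Type) [Fintype U] (κ : Option (Y m A) × Option (Y m A)) : Finset (V m A U) :=
  univ.map ⟨sec κ, sec_inj κ⟩

omit [Fintype A] [DecidableEq A] [DecidableEq U] in
theorem mem_DD {κ : Option (Y m A) × Option (Y m A)} {v : V m A U} : v ∈ DD U κ ↔ ∃ γ, sec κ γ = v := by
  unfold DD
  simp

omit [Fintype A] [DecidableEq A] [DecidableEq U] in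
theorem card_DD (κ : Option (Y m A) × Option (Y m A)) : (DD U κ).card = Fintype.card (Gp m U) := by
  unfold DD
  rw [card_map, card_univ]

omit [Fintype A] [DecidableEq A] [DecidableEq U] in
theorem DD_inj : Function.Injective (DD U : Option (Y m A) × Option (Y m A) → Finset (V m A U)) := by
  intro κ κ' h
  have key : ∀ s, sd κ s = sd κ' s := by
    intro s
    have h1 : sec κ (Sum.inl (s, none)) ∈ DD U κ' := by
      rw [← h]
      exact mem_DD.2 ⟨_, rfl⟩
    obtain ⟨γ, hγ⟩ := mem_DD.1 h1
    have h2 := congrArg grp hγ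
    rw [grp_sec, grp_sec] at h2
    rw [h2] at hγ
    simp only [sec, Sum.inl.injEq, Prod.mk.injEq, true_and] at hγ
    exact hγ.symm
  have h1 := key false
  have h2 := key true
  simp only [sd, Bool.false_eq_true, if_false, if_true] at h1 h2
  exact Prod.ext h1 h2

omit [Fintype A] in
/-- cliques of the right size are sections -/
theorem eq_DD {D : Finset (V m A U)} (hc : D.card = Fintype.card (Gp m U))
    (hD : ∀ v ∈ D, ∀ w ∈ D, v ≠ w → ¬ bad v w) : ∃ κ : Option (Y m A) × Option (Y m A), D = DD U κ := by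
  classical
  have hinj : Set.InjOn grp (D : Set (V m A U)) := by
    intro v hv w hw h
    by_contra hne
    exact hD v hv w hw hne (Or.inl h)
  have himg : D.image grp = univ := by
    apply Finset.eq_univ_of_card
    rw [Finset.card_image_of_injOn hinj, hc]
  have hex : ∀ γ : Gp m U, ∃ v ∈ D, grp v = γ := by
    intro γ
    have := himg ▸ mem_univ γ
    obtain ⟨v, hv, h⟩ := mem_image.1 this
    exact ⟨v, hv, h⟩
  have hctl : ∀ s : Bool, ∃ y : Option (Y m A), Sum.inl (s, Sum.inl y) ∈ D := by
    intro s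
    obtain ⟨v, hv, h⟩ := hex (Sum.inl (s, none))
    rcases v with ⟨s', y | ⟨g, b⟩⟩ | u
    · simp only [grp, Sum.inl.injEq, Prod.mk.injEq, and_true] at h
      subst h
      exact ⟨y, hv⟩
    · simp [grp] at h
    · simp [grp] at h
  choose y hy using hctl
  refine ⟨(y false, y true), ?_⟩
  have hsd : ∀ s, sd (y false, y true) s = y s := by
    intro s
    cases s <;> rfl
  symm
  apply Finset.eq_of_subset_of_card_le
  · intro v hv
    obtain ⟨γ, rfl⟩ := mem_DD.1 hv
    obtain ⟨w, hw, h⟩ := hex γ
    rcases γ with ⟨s, _ | g⟩ | u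
    · simp only [sec, hsd]
      exact hy s
    · rcases w with ⟨s', y' | ⟨g', b⟩⟩ | u
      · simp [grp] at h
      · simp only [grp, Sum.inl.injEq, Prod.mk.injEq, Option.some.injEq] at h
        obtain ⟨rfl, rfl⟩ := h
        have h1 := hD _ (hy s') _ hw (by simp)
        have h2 : b = vl (y s') g' := by
          by_contra hb
          exact h1 (Or.inr (Or.inl ⟨rfl, hb⟩))
        simp only [sec, hsd]
        rw [← h2]
        exact hw
      · simp [grp] at h
    · rcases w with ⟨s', y' | ⟨g', b⟩⟩ | u'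
      · simp [grp] at h
      · simp [grp] at h
      · simp only [grp, Sum.inr.injEq] at h
        subst h
        exact hw
  · rw [hc, card_DD]

/-- the edge of a variable -/
def ed (U : Type) (x : Y m A × Y m A) : Sym2 (V m A U) :=
  s(Sum.inl (false, Sum.inr (x.1.1, some x.1.2)), Sum.inl (true, Sum.inr (x.2.1, some x.2.2)))

/-- the edge of the control vertices -/
def ce (U : Type) (κ : Option (Y m A) × Option (Y m A)) : Sym2 (V m A U) :=
  s(Sum.inl (false, Sum.inl κ.1), Sum.inl (true, Sum.inl κ.2))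

omit [Fintype A] [DecidableEq A] [Fintype U] [DecidableEq U] in
theorem ed_inj : Function.Injective (ed U : Y m A × Y m A → Sym2 (V m A U)) := by
  rintro ⟨⟨g, α⟩, ⟨h, β⟩⟩ ⟨⟨g', α'⟩, ⟨h', β'⟩⟩ e
  simp only [ed, Sym2.eq_iff, Sum.inl.injEq, Prod.mk.injEq, Sum.inr.injEq, Option.some.injEq, true_and,
    Bool.false_eq_true, false_and, or_false, reduceCtorEq] at e
  obtain ⟨⟨rfl, rfl⟩, ⟨rfl, rfl⟩⟩ := e
  rfl

/-- the variables of the clique -/
def vs (κ : Option (Y m A) × Option (Y m A)) : Finset (Y m A × Y m A) :=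
  univ.filter fun x => vl κ.1 x.1.1 = some x.1.2 ∧ vl κ.2 x.2.1 = some x.2.2

/-- the weight of the clique -/
theorem prod_psi (s : Option (Y m A) → Option (Y m A) → ℂ) (κ : Option (Y m A) × Option (Y m A)) :
    ∏ e ∈ edges (DD U κ), psi s e = C (s κ.1 κ.2) * ∏ x ∈ vs κ, X x := by
  classical
  have hce : ce U κ ∉ (vs κ).image (ed U) := by
    intro h
    obtain ⟨x, _, hx⟩ := mem_image.1 h
    simp only [ed, ce, Sym2.eq_iff, Sum.inl.injEq, Prod.mk.injEq, reduceCtorEq, and_false, or_self] at hx
  have h2 : C (s κ.1 κ.2) * ∏ x ∈ vs κ, (X x : MvPolynomial (Y m A × Y m A) ℂ) =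
      ∏ e ∈ insert (ce U κ) ((vs κ).image (ed U)), psi s e := by
    rw [Finset.prod_insert hce, Finset.prod_image fun x _ y _ h => ed_inj h]
    congr 1
    · unfold ce psi
      rw [Sym2.lift_mk]
      simp only [pw]
      rw [if_neg]
      · simp [ve]
      · simp [bad, grp, inc]
    · refine Finset.prod_congr rfl fun x _ => ?_
      unfold ed psi
      rw [Sym2.lift_mk]
      simp only [pw]
      rw [if_neg]
      · simp [ve]
      · simp [bad, grp, inc]
  rw [h2]
  symm
  apply Finset.prod_subset
  · intro e he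
    rw [mem_insert] at he
    rcases he with rfl | he
    · unfold ce
      rw [mem_edges]
      refine ⟨mem_DD.2 ⟨Sum.inl (false, none), ?_⟩, mem_DD.2 ⟨Sum.inl (true, none), ?_⟩, by simp⟩
      · simp [sec, sd]
      · simp [sec, sd]
    · obtain ⟨x, hx, rfl⟩ := mem_image.1 he
      unfold vs at hx
      rw [mem_filter] at hx
      obtain ⟨h3, h4⟩ := hx.2
      unfold ed
      rw [mem_edges]
      refine ⟨?_, ?_, by simp⟩
      · rw [mem_DD]
        refine ⟨Sum.inl (false, some x.1.1), ?_⟩
        simp [sec, sd, h3]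
      · rw [mem_DD]
        refine ⟨Sum.inl (true, some x.2.1), ?_⟩
        simp [sec, sd, h4]
  · intro e he hne
    induction e using Sym2.ind with
    | _ v w =>
      obtain ⟨hv, hw, hvw⟩ := mem_edges.1 he
      obtain ⟨γ, rfl⟩ := mem_DD.1 hv
      obtain ⟨γ', rfl⟩ := mem_DD.1 hw
      have key : ∀ γ γ' : Gp m U, s(sec κ γ, sec κ γ') ∉ insert (ce U κ) ((vs κ).image (ed U)) →
          ve s (sec κ γ) (sec κ γ' : V m A U) = 1 := by
        intro γ γ' hne
        rw [mem_insert, not_or] at hne
        obtain ⟨hne1, hne2⟩ := hne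
        rcases ve_cases s (sec κ γ) (sec κ γ' : V m A U) with h | ⟨y, y', h1, h2⟩ | ⟨x, h1, h2⟩
        · exact h
        · exfalso
          apply hne1
          have g1 := congrArg grp h1
          have g2 := congrArg grp h2
          rw [grp_sec] at g1 g2
          rw [g1, g2]
          rfl
        · exfalso
          apply hne2
          have g1 := congrArg grp h1
          have g2 := congrArg grp h2
          rw [grp_sec] at g1 g2
          simp only [grp] at g1 g2
          rw [g1] at h1
          rw [g2] at h2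
          simp only [sec, Sum.inl.injEq, Prod.mk.injEq, Sum.inr.injEq, true_and] at h1 h2
          rw [mem_image]
          refine ⟨x, ?_, ?_⟩
          · unfold vs
            rw [mem_filter]
            exact ⟨mem_univ _, h1, h2⟩
          · rw [g1, g2]
            simp only [sec, h1, h2]
            rfl
      unfold psi
      rw [Sym2.lift_mk]
      simp only [pw]
      rw [if_neg (not_bad_sec κ γ γ' fun h => hvw (by rw [h])), key γ γ' hne,
        key γ' γ (by rwa [Sym2.eq_swap]), one_mul]

/-- **The substitution.** -/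
theorem aeval_graph {Ω : Type} [Fintype Ω] [DecidableEq Ω] {k : ℕ} (hk : k = Fintype.card (Gp m U)) (hk2 : 2 ≤ k)
    {f : MvPolynomial (Sym2 Ω) ℂ} (hf : CliqueSupport k f) (ι : V m A U ↪ Ω)
    (s : Option (Y m A) → Option (Y m A) → ℂ) :
    aeval (Clique.ext ι (psi s)) f = ∑ κ : Option (Y m A) × Option (Y m A),
      C (coeff (mon ((DD U κ).map ι)) f) * (C (s κ.1 κ.2) * ∏ x ∈ vs κ, X x) := by
  classical
  rw [aeval_ext hk2 hf]
  symm
  refine Finset.sum_of_injOn (fun κ => DD U κ) (fun κ _ κ' _ h => DD_inj h) ?_ ?_ ?_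
  · intro κ _
    rw [mem_coe, mem_powersetCard]
    exact ⟨subset_univ _, by rw [card_DD, hk]⟩
  · intro D hD hD'
    rw [mem_powersetCard] at hD
    have : ∃ v ∈ D, ∃ w ∈ D, v ≠ w ∧ bad v w := by
      by_contra hcon
      push Not at hcon
      obtain ⟨κ, rfl⟩ := eq_DD (hD.2.trans hk) hcon
      exact hD' ⟨κ, mem_coe.2 (mem_univ _), rfl⟩
    obtain ⟨v, hv, w, hw, hne, hb⟩ := this
    rw [Finset.prod_eq_zero (i := s(v, w)) (mem_edges.2 ⟨hv, hw, hne⟩), mul_zero]
    unfold psi
    rw [Sym2.lift_mk]
    simp only [pw]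
    rw [if_pos hb]
  · intro κ _
    rw [prod_psi]
    rfl

end

theorem psi_totalDegree {m : ℕ} {A U : Type} (s : Option (Y m A) → Option (Y m A) → ℂ)
    (e : Sym2 (V m A U)) : (psi s e).totalDegree ≤ 1 := by
  induction e using Sym2.ind with
  | _ v w =>
    unfold psi
    rw [Sym2.lift_mk]
    simp only [pw]
    split_ifs
    · simp
    · rcases v with ⟨_ | _, y | ⟨g, _ | α⟩⟩ | u <;> rcases w with ⟨_ | _, y' | ⟨g', _ | β⟩⟩ | u' <;>
        simp [ve, totalDegree_X]

theorem ext_totalDegree {m : ℕ} {A U Ω : Type} (s : Option (Y m A) → Option (Y m A) → ℂ)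
    (ι : V m A U ↪ Ω) (e : Sym2 Ω) : (Clique.ext ι (psi s) e).totalDegree ≤ 1 := by
  unfold Clique.ext
  split_ifs
  · exact psi_totalDegree s _
  · simp

theorem card_V (m : ℕ) (A U : Type) [Fintype A] [Fintype U] :
    Fintype.card (V m A U) = 4 * (2 ^ m * Fintype.card A) + 2 * 2 ^ m + 2 + Fintype.card U := by
  simp only [Fintype.card_sum, Fintype.card_prod, Fintype.card_bool, Fintype.card_fun, Fintype.card_fin,
    Fintype.card_option]
  ring

theorem card_Gp (m : ℕ) (U : Type) [Fintype U] : Fintype.card (Gp m U) = 2 * 2 ^ m + 2 + Fintype.card U := by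
  simp only [Fintype.card_sum, Fintype.card_prod, Fintype.card_bool, Fintype.card_fun, Fintype.card_fin,
    Fintype.card_option]
  ring

/-- the sum over the pairs of options -/
theorem sum_opt {Z R : Type*} [Fintype Z] [AddCommMonoid R] (F : Option Z × Option Z → R)
    (h1 : ∀ y, F (some y, none) = 0) (h2 : ∀ y, F (none, some y) = 0) :
    ∑ κ, F κ = F (none, none) + ∑ κ : Z × Z, F (some κ.1, some κ.2) := by
  rw [Fintype.sum_prod_type, Fintype.sum_prod_type, Fintype.sum_option, Fintype.sum_option]
  simp only [h2, Finset.sum_const_zero, add_zero]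
  congr 1
  refine Finset.sum_congr rfl fun y _ => ?_
  rw [Fintype.sum_option, h1, zero_add]

/-- **The normalised substitution.** -/
theorem exists_subst {Ω : Type} [Fintype Ω] [DecidableEq Ω] (m q u k : ℕ)
    (hn : 4 * (2 ^ m * q) + 2 * 2 ^ m + 2 + u ≤ Fintype.card Ω) (hk : k = 2 * 2 ^ m + 2 + u)
    (f : MvPolynomial (Sym2 Ω) ℂ) (hf : CliqueSupport k f) :
    ∃ φ : Sym2 Ω → MvPolynomial (Y m (Fin q) × Y m (Fin q)) ℂ, (∀ e, (φ e).totalDegree ≤ 1) ∧
      aeval φ f = (∑ κ : Y m (Fin q) × Y m (Fin q), ∏ x, X x ^ ex κ x) -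
        C ((Fintype.card (Y m (Fin q) × Y m (Fin q)) : ℕ) : ℂ) := by
  classical
  have hV : Fintype.card (V m (Fin q) (Fin u)) ≤ Fintype.card Ω := by
    rw [card_V, Fintype.card_fin, Fintype.card_fin]
    exact hn
  obtain ⟨ι⟩ := Function.Embedding.nonempty_of_card_le hV
  have hk1 : k = Fintype.card (Gp m (Fin u)) := by
    rw [hk, card_Gp, Fintype.card_fin]
  set c : Option (Y m (Fin q)) × Option (Y m (Fin q)) → ℂ :=
    fun κ => coeff (mon ((DD (Fin u) κ).map ι)) f with hc
  have hc0 : ∀ κ, c κ ≠ 0 := fun κ => (hf _).2 ⟨_, by rw [card_map, card_DD, hk1], rfl⟩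
  set N : ℂ := ((Fintype.card (Y m (Fin q) × Y m (Fin q)) : ℕ) : ℂ) with hN
  set s : Option (Y m (Fin q)) → Option (Y m (Fin q)) → ℂ := fun y y' =>
    match y, y' with
    | some y, some y' => (c (some y, some y'))⁻¹
    | none, none => -N * (c (none, none))⁻¹
    | _, _ => 0 with hs
  refine ⟨Clique.ext ι (psi s), ext_totalDegree s ι, ?_⟩
  rw [aeval_graph hk1 (by omega) hf ι s, sum_opt]
  · have e0 : vs ((none, none) : Option (Y m (Fin q)) × Option (Y m (Fin q))) = ∅ := by
      unfold vs
      apply Finset.filter_false_of_mem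
      intro x _ h
      simp [vl] at h
    rw [e0, Finset.prod_empty, mul_one, ← C_mul]
    have e1 : coeff (mon ((DD (Fin u) ((none, none) : Option (Y m (Fin q)) × Option (Y m (Fin q)))).map ι)) f *
        s none none = -N := by
      change c (none, none) * (-N * (c (none, none))⁻¹) = -N
      have := hc0 (none, none)
      field_simp
    rw [e1, C_neg, neg_add_eq_sub]
    congr 1
    refine Finset.sum_congr rfl fun κ _ => ?_
    rw [← mul_assoc, ← C_mul]
    have e2 : coeff (mon ((DD (Fin u) (some κ.1, some κ.2)).map ι)) f * s (some κ.1) (some κ.2) = 1 := by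
      change c (some κ.1, some κ.2) * (c (some κ.1, some κ.2))⁻¹ = 1
      exact mul_inv_cancel₀ (hc0 _)
    rw [e2, C_1, one_mul]
    unfold vs
    rw [Finset.prod_filter]
    refine Finset.prod_congr rfl fun x _ => ?_
    have e3 : (vl (some κ.1) x.1.1 = some x.1.2 ∧ vl (some κ.2) x.2.1 = some x.2.2) ↔ ex κ x = 1 := by
      rw [ex_eq_one]
      rfl
    have e4 := ex_le κ x
    by_cases h : ex κ x = 1
    · rw [if_pos (e3.2 h), h, pow_one]
    · rw [if_neg (fun h' => h (e3.1 h')), show ex κ x = 0 by omega, pow_zero]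
  · intro y
    simp [hs]
  · intro y
    simp [hs]

end Clique2
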