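import Mathlib

/-!
The choice of the parameters in the lower bound for determinantal representations of polynomials supported on
cliques.
-/
namespace CliqueNum
open Real

/-- `(p / e) ^ p ≤ p!` -/
theorem fact_ge (p : ℕ) : ((p : ℝ) / exp 1) ^ p ≤ (p.factorial : ℝ) := by
  have h1 : (p : ℝ) ^ p / (p.factorial : ℝ) ≤ exp p := by
    have := Real.pow_div_factorial_le_exp (x := (p : ℝ)) (by positivity) p
    exact this
  have h2 : (0 : ℝ) < (p.factorial : ℝ) := by positivity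
  rw [div_le_iff₀ h2] at h1
  rw [div_pow, ← Real.exp_nat_mul, mul_one, div_le_iff₀ (exp_pos _)]
  linarith

/-- the main inequality for given parameters -/
theorem step (p q M t0 : ℕ) (hp : 32 ≤ p) (hq : 1 ≤ q) (ht : t0 ^ 2 * 4 ^ p = 4 * p ^ p)
    (h : ((p.factorial : ℝ) ^ (p * q)) * (t0 : ℝ) ^ (p * q) ≤
      (2 * exp 1 * (2 * M + ((p ^ 2 * q : ℕ) : ℝ) + 1) / (((p ^ 2 * q : ℕ) : ℝ) + 1)) ^ (p ^ 2 * q + 1)) :
    ((p ^ 2 * q : ℕ) : ℝ) * (p : ℝ) ^ (3 / 2 : ℝ) ≤ 16 * exp 1 ^ 3 * M := by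
  have he := exp_pos (1 : ℝ)
  have he1 : (2.7182818283 : ℝ) < exp 1 := Real.exp_one_gt_d9
  have he2 : exp 1 < (2.7182818286 : ℝ) := Real.exp_one_lt_d9
  have hpR : (32 : ℝ) ≤ p := by exact_mod_cast hp
  have hqR : (1 : ℝ) ≤ q := by exact_mod_cast hq
  have hp0 : (0 : ℝ) < p := by linarith
  set N := p ^ 2 * q with hN
  set s : ℝ := Real.sqrt p with hs
  have hs2 : s ^ 2 = p := Real.sq_sqrt hp0.le
  have hs0 : 0 < s := Real.sqrt_pos.2 hp0
  have e32 : (p : ℝ) ^ (3 / 2 : ℝ) = s ^ 3 := by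
    rw [hs, Real.sqrt_eq_rpow, ← Real.rpow_natCast, ← Real.rpow_mul hp0.le]
    norm_num
  rw [e32]
  set X : ℝ := s ^ 3 / (2 * exp 1) with hX
  set Y : ℝ := 2 * exp 1 * (2 * M + (N : ℝ) + 1) / ((N : ℝ) + 1) with hY
  have hX0 : 0 < X := by positivity
  -- `t0 ≥ (s / 2) ^ p`
  have ht0 : (s / 2) ^ p ≤ (t0 : ℝ) := by
    have h1 : ((t0 : ℝ)) ^ 2 * 4 ^ p = 4 * (p : ℝ) ^ p := by exact_mod_cast ht
    have h2 : ((s / 2) ^ p) ^ 2 * 4 ^ p = (p : ℝ) ^ p := by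
      rw [← pow_mul, mul_comm p 2, pow_mul, ← mul_pow, div_pow, hs2]
      congr 1
      norm_num
    have h3 : ((s / 2) ^ p) ^ 2 ≤ (t0 : ℝ) ^ 2 := by
      have h4 : (0 : ℝ) < 4 ^ p := by positivity
      have h5 : (0 : ℝ) ≤ (p : ℝ) ^ p := by positivity
      refine le_of_mul_le_mul_right ?_ h4
      rw [h1, h2]
      linarith
    exact (pow_le_pow_iff_left₀ (by positivity) (by positivity) (by norm_num)).1 h3
  -- the left side
  have hL : X ^ N ≤ Y ^ (N + 1) := by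
    refine le_trans ?_ h
    have e1 : X ^ N = (((p : ℝ) / exp 1) ^ p) ^ (p * q) * ((s / 2) ^ p) ^ (p * q) := by
      rw [← mul_pow, ← mul_pow, ← pow_mul, hX, ← hs2, hN]
      congr 1
      · field_simp
      · ring
    rw [e1]
    gcongr
    exact fact_ge p
  -- `X ≤ e Y`
  have hNR : (p : ℝ) ^ 2 ≤ (N : ℝ) := by
    rw [hN]
    push_cast
    nlinarith [sq_nonneg (p : ℝ)]
  have hs1 : s ≤ p := by
    rw [← hs2]
    have : 1 ≤ s := by
      rw [hs]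
      exact Real.one_le_sqrt.2 (by linarith)
    nlinarith
  have hXe : X ≤ exp 1 ^ (N + 1) := by
    have h1 : X ≤ s ^ 3 := by
      rw [hX, div_le_iff₀ (by positivity)]
      nlinarith [pow_pos hs0 3]
    have h2 : s ^ 3 ≤ (N : ℝ) := by
      calc s ^ 3 = s * s ^ 2 := by ring
        _ = s * p := by rw [hs2]
        _ ≤ p * p := by gcongr
        _ = (p : ℝ) ^ 2 := by ring
        _ ≤ N := hNR
    have h3 : (N : ℝ) ≤ exp 1 ^ (N + 1) := by
      rw [← Real.exp_nat_mul, mul_one]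
      have := Real.add_one_le_exp (((N + 1 : ℕ) : ℝ))
      push_cast at this ⊢
      linarith
    linarith
  have hY0 : 0 < Y := by positivity
  have hXY : X ≤ exp 1 * Y := by
    have h1 : X ^ (N + 1) ≤ (exp 1 * Y) ^ (N + 1) := by
      rw [pow_succ, mul_pow, mul_comm]
      exact mul_le_mul hXe hL (by positivity) (by positivity)
    exact (pow_le_pow_iff_left₀ hX0.le (by positivity) (by omega)).1 h1
  -- conclusion
  have hN1 : (0 : ℝ) < (N : ℝ) + 1 := by positivity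
  rw [hX, hY, div_le_iff₀ (by positivity)] at hXY
  have h1 : s ^ 3 * ((N : ℝ) + 1) ≤ 4 * exp 1 ^ 3 * (2 * M + N + 1) := by
    have h2 : exp 1 * (2 * exp 1 * (2 * (M : ℝ) + N + 1) / ((N : ℝ) + 1)) * (2 * exp 1) =
        4 * exp 1 ^ 3 * (2 * M + N + 1) / ((N : ℝ) + 1) := by
      field_simp
      ring
    rw [h2, le_div_iff₀ hN1] at hXY
    exact hXY
  have he3 : exp 1 ^ 3 < 20.1 := by
    have : exp 1 ^ 3 < 2.7182818286 ^ 3 := by gcongr
    refine this.trans ?_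
    norm_num
  have hs3 : 8 * exp 1 ^ 3 ≤ s ^ 3 := by
    have h5 : 5.6 ≤ s := by
      rw [hs]
      apply Real.le_sqrt_of_sq_le
      norm_num
      linarith
    have h6 : (5.6 : ℝ) ^ 3 ≤ s ^ 3 := by gcongr
    have h7 : (8 * 20.1 : ℝ) ≤ 5.6 ^ 3 := by norm_num
    linarith
  nlinarith [mul_le_mul_of_nonneg_right hs3 hN1.le, pow_pos hs0 3]

/-- **The choice of the parameters.** -/
theorem main : ∃ c : ℝ, 0 < c ∧ ∃ k0 : ℕ, ∀ n k M : ℕ, k0 ≤ k → k + k0 ≤ n →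
    (∀ m q u : ℕ, 1 ≤ q → 2 * (2 ^ m * q) + 3 * 2 ^ m + 1 + u ≤ n → k = 2 * 2 ^ m + 2 + u →
      ∃ t0 : ℕ, t0 ^ 2 * 4 ^ (2 ^ m) = 4 * (2 ^ m) ^ (2 ^ m) ∧
        (((2 ^ m).factorial : ℝ) ^ (2 ^ m * q)) * (t0 : ℝ) ^ (2 ^ m * q) ≤
        (2 * exp 1 * (2 * M + (((2 ^ m) ^ 2 * q : ℕ) : ℝ) + 1) / ((((2 ^ m) ^ 2 * q : ℕ) : ℝ) + 1)) ^
          ((2 ^ m) ^ 2 * q + 1)) →
    c * (((n - k : ℕ) : ℝ) * ((min k (n - k) : ℕ) : ℝ) ^ (5 / 2 : ℝ)) ≤ M := by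
  refine ⟨1 / (16 * exp 1 ^ 3 * (8 * 8 * 64)), by positivity, 256, ?_⟩
  intro n k M hk hkn H
  set t := min k (n - k) with ht
  have ht1 : 256 ≤ t := by rw [ht]; exact le_min hk (by omega)
  have htk : t ≤ k := min_le_left _ _
  have htn : t ≤ n - k := min_le_right _ _
  set m := Nat.log 2 (t / 4) with hm
  have hp1 : 2 ^ m ≤ t / 4 := Nat.pow_log_le_self 2 (by omega)
  have hp2 : t / 4 < 2 ^ (m + 1) := Nat.lt_pow_succ_log_self (by norm_num) _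
  set p := 2 ^ m with hp
  have hp2' : t / 4 < 2 * p := by rw [hp]; rw [pow_succ] at hp2; omega
  have hp32 : 32 ≤ p := by
    by_contra hcon
    push Not at hcon
    have h1 : m < 5 := by
      by_contra h5
      push Not at h5
      have : 2 ^ 5 ≤ 2 ^ m := Nat.pow_le_pow_right (by norm_num) h5
      rw [← hp] at this
      omega
    have h2 : 2 ^ (m + 1) ≤ 2 ^ 5 := Nat.pow_le_pow_right (by norm_num) (by omega)
    omega
  have hp0 : 0 < p := by omega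
  set q := (n - k) / (4 * p) with hq
  have hq1 : q * (4 * p) ≤ n - k := Nat.div_mul_le_self _ _
  have hq2 : n - k < (q + 1) * (4 * p) := by
    have := Nat.lt_div_mul_add (a := n - k) (b := 4 * p) (by positivity)
    rw [add_mul, one_mul]
    exact this
  have hq0 : 1 ≤ q := (Nat.one_le_div_iff (by positivity)).2 (by omega)
  obtain ⟨t0, h1, h2⟩ := H m q (k - 2 - 2 * p) hq0 (by
    rw [← hp]
    have e1 : q * (4 * p) = 4 * (p * q) := by ring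
    rw [e1] at hq1
    omega) (by rw [← hp]; omega)
  rw [← hp] at h1 h2
  have h3 := step p q M t0 hp32 hq0 h1 h2
  -- `n - k ≤ 8 p q`, `t ≤ 8 p`
  have h4 : n - k ≤ 8 * (p * q) := by
    have : (q + 1) * (4 * p) ≤ 8 * (p * q) := by
      calc (q + 1) * (4 * p) ≤ (q + q) * (4 * p) := Nat.mul_le_mul_right _ (by omega)
        _ = 8 * (p * q) := by ring
    omega
  have h5 : t ≤ 8 * p := by omega
  have h4R : ((n - k : ℕ) : ℝ) ≤ 8 * (p * q) := by exact_mod_cast h4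
  have h5R : (t : ℝ) ≤ 8 * p := by exact_mod_cast h5
  have hpR : (0 : ℝ) < p := by exact_mod_cast hp0
  have h6 : (t : ℝ) ^ (5 / 2 : ℝ) ≤ 8 * 64 * (p * (p : ℝ) ^ (3 / 2 : ℝ)) := by
    calc (t : ℝ) ^ (5 / 2 : ℝ) ≤ (8 * p : ℝ) ^ (5 / 2 : ℝ) :=
          Real.rpow_le_rpow (by positivity) h5R (by norm_num)
      _ = (8 : ℝ) ^ (5 / 2 : ℝ) * (p : ℝ) ^ (5 / 2 : ℝ) := Real.mul_rpow (by norm_num) hpR.le
      _ = (8 : ℝ) ^ (5 / 2 : ℝ) * (p * (p : ℝ) ^ (3 / 2 : ℝ)) := by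
          congr 1
          rw [show (5 / 2 : ℝ) = 1 + 3 / 2 by norm_num, Real.rpow_add hpR, Real.rpow_one]
      _ ≤ 8 * 64 * (p * (p : ℝ) ^ (3 / 2 : ℝ)) := by
          refine mul_le_mul_of_nonneg_right ?_ (by positivity)
          calc (8 : ℝ) ^ (5 / 2 : ℝ) ≤ (8 : ℝ) ^ ((3 : ℕ) : ℝ) :=
                Real.rpow_le_rpow_of_exponent_le (by norm_num) (by norm_num)
            _ = 8 * 64 := by
                rw [Real.rpow_natCast]
                norm_num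
  have h7 : ((n - k : ℕ) : ℝ) * (t : ℝ) ^ (5 / 2 : ℝ) ≤
      (8 * 8 * 64) * (((p ^ 2 * q : ℕ) : ℝ) * (p : ℝ) ^ (3 / 2 : ℝ)) := by
    calc ((n - k : ℕ) : ℝ) * (t : ℝ) ^ (5 / 2 : ℝ) ≤
          (8 * (p * q)) * (8 * 64 * (p * (p : ℝ) ^ (3 / 2 : ℝ))) := by gcongr
      _ = _ := by push_cast; ring
  rw [div_mul_eq_mul_div, one_mul, div_le_iff₀ (by positivity)]
  calc ((n - k : ℕ) : ℝ) * (t : ℝ) ^ (5 / 2 : ℝ) ≤
        (8 * 8 * 64) * (((p ^ 2 * q : ℕ) : ℝ) * (p : ℝ) ^ (3 / 2 : ℝ)) := h7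
    _ ≤ (8 * 8 * 64) * (16 * exp 1 ^ 3 * M) := by gcongr
    _ = _ := by ring

end CliqueNum
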