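import Pool.Agent.Helper74.Clique.Poly

/-!
Identity tests for cliques. A test is a polynomial `f` in the edge variables (multilinear in them) and in auxiliary
variables such that, for every graph `G`, the restriction of `f` to the edges of `G` is a nonzero polynomial if and
only if `G` has a `k`-clique. Its projections degenerate to a polynomial whose monomials are exactly the `k`-cliques.
-/
namespace CliqueTest
open Finset MvPolynomial Clique

/-- The restriction to the graph `G`: the variables of the pairs which are not edges are set to `0`. -/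
noncomputable def restrict {n : ℕ} {Y : Type} (G : SimpleGraph (Fin n)) :
    MvPolynomial (Sym2 (Fin n) ⊕ Y) ℂ →ₐ[ℂ] MvPolynomial (Sym2 (Fin n) ⊕ Y) ℂ :=
  open Classical in
  aeval (Sum.elim (fun e => if e ∈ G.edgeSet then X (Sum.inl e) else 0) (fun y => X (Sum.inr y)))

/-- Identity tests for `k`-cliques. -/
def IsTest {n : ℕ} {Y : Type} (k : ℕ) (f : MvPolynomial (Sym2 (Fin n) ⊕ Y) ℂ) : Prop :=
  (∀ e : Sym2 (Fin n), degreeOf (Sum.inl e) f ≤ 1) ∧
    ∀ G : SimpleGraph (Fin n), restrict G f ≠ 0 ↔ ∃ C : Finset (Fin n), G.IsNClique k C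

section

variable {n : ℕ} {Y : Type} [Fintype Y]

/-- the part of a monomial in the edge variables -/
noncomputable def xp (m : Sym2 (Fin n) ⊕ Y →₀ ℕ) : Sym2 (Fin n) →₀ ℕ :=
  Finsupp.equivFunOnFinite.symm fun e => m (Sum.inl e)

/-- the part of a monomial in the auxiliary variables -/
noncomputable def yp (m : Sym2 (Fin n) ⊕ Y →₀ ℕ) : Y →₀ ℕ :=
  Finsupp.equivFunOnFinite.symm fun y => m (Sum.inr y)

omit [Fintype Y] in
theorem xp_apply (m : Sym2 (Fin n) ⊕ Y →₀ ℕ) (e : Sym2 (Fin n)) : xp m e = m (Sum.inl e) := rfl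

theorem yp_apply (m : Sym2 (Fin n) ⊕ Y →₀ ℕ) (y : Y) : yp m y = m (Sum.inr y) := rfl

theorem xy_inj {m m' : Sym2 (Fin n) ⊕ Y →₀ ℕ} (h : xp m = xp m') (h' : yp m = yp m') : m = m' := by
  ext i
  rcases i with e | y
  · exact DFunLike.congr_fun h e
  · exact DFunLike.congr_fun h' y

omit [Fintype Y] in
open Classical in
/-- the restriction of a monomial -/
theorem restrict_monomial (G : SimpleGraph (Fin n)) (m : Sym2 (Fin n) ⊕ Y →₀ ℕ) (c : ℂ) :
    restrict G (monomial m c) = if ∀ e, m (Sum.inl e) ≠ 0 → e ∈ G.edgeSet then monomial m c else 0 := by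
  unfold restrict
  rw [aeval_monomial]
  split_ifs with h
  · rw [monomial_eq]
    congr 1
    refine Finset.prod_congr rfl fun i hi => ?_
    rcases i with e | y
    · simp only [Sum.elim_inl]
      rw [if_pos (h e (Finsupp.mem_support_iff.1 hi))]
    · rfl
  · push Not at h
    obtain ⟨e, he, heG⟩ := h
    rw [Finsupp.prod, Finset.prod_eq_zero (i := Sum.inl e) (Finsupp.mem_support_iff.2 he), mul_zero]
    simp only [Sum.elim_inl]
    rw [if_neg heG, zero_pow he]

omit [Fintype Y] in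
open Classical in
theorem coeff_restrict (G : SimpleGraph (Fin n)) (f : MvPolynomial (Sym2 (Fin n) ⊕ Y) ℂ)
    (m : Sym2 (Fin n) ⊕ Y →₀ ℕ) :
    coeff m (restrict G f) = if ∀ e, m (Sum.inl e) ≠ 0 → e ∈ G.edgeSet then coeff m f else 0 := by
  induction f using MvPolynomial.induction_on' with
  | monomial u a =>
    rw [restrict_monomial]
    by_cases hu : u = m
    · subst hu
      split_ifs <;> simp
    · split_ifs <;> simp [coeff_monomial, hu]
  | add p q hp hq =>
    rw [map_add, coeff_add, coeff_add, hp, hq]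
    split_ifs <;> simp

omit [Fintype Y] in
/-- every monomial of a test contains a clique -/
theorem exists_cliqueY {k : ℕ} {f : MvPolynomial (Sym2 (Fin n) ⊕ Y) ℂ} (hf : IsTest k f)
    {m : Sym2 (Fin n) ⊕ Y →₀ ℕ} (hm : coeff m f ≠ 0) (hd : ∀ e : Sym2 (Fin n), e.IsDiag → m (Sum.inl e) = 0) :
    ∃ C : Finset (Fin n), C.card = k ∧ ∀ e ∈ edges C, m (Sum.inl e) ≠ 0 := by
  classical
  set G : SimpleGraph (Fin n) := SimpleGraph.fromEdgeSet {e | m (Sum.inl e) ≠ 0} with hG
  have h1 : restrict G f ≠ 0 := by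
    intro h
    have h2 := coeff_restrict G f m
    rw [h, coeff_zero, if_pos] at h2
    · exact hm h2.symm
    · intro e he
      rw [hG, SimpleGraph.edgeSet_fromEdgeSet]
      exact ⟨he, fun hdiag => he (hd e hdiag)⟩
  obtain ⟨C, hC⟩ := (hf.2 G).1 h1
  refine ⟨C, hC.card_eq, fun e he => ?_⟩
  induction e using Sym2.ind with
  | _ v w =>
    obtain ⟨hv, hw, hvw⟩ := mem_edges.1 he
    have h3 := hC.isClique hv hw hvw
    rw [hG, SimpleGraph.fromEdgeSet_adj] at h3
    exact h3.1

omit [Fintype Y] in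
theorem le_one {f : MvPolynomial (Sym2 (Fin n) ⊕ Y) ℂ} (hf : ∀ e : Sym2 (Fin n), degreeOf (Sum.inl e) f ≤ 1)
    {m : Sym2 (Fin n) ⊕ Y →₀ ℕ} (hm : coeff m f ≠ 0) (e : Sym2 (Fin n)) : m (Sum.inl e) ≤ 1 :=
  (monomial_le_degreeOf (Sum.inl e) (mem_support_iff.2 hm)).trans (hf e)

omit [Fintype Y] in
/-- each clique is the edge part of a monomial -/
theorem exists_mono {k : ℕ} (hk : 2 ≤ k) {f : MvPolynomial (Sym2 (Fin n) ⊕ Y) ℂ} (hf : IsTest k f)
    {C : Finset (Fin n)} (hC : C.card = k) : ∃ m : Sym2 (Fin n) ⊕ Y →₀ ℕ, coeff m f ≠ 0 ∧ xp m = mon C := by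
  classical
  set G : SimpleGraph (Fin n) := SimpleGraph.fromEdgeSet (edges C : Set (Sym2 (Fin n))) with hG
  have hGe : ∀ e, e ∈ G.edgeSet → e ∈ edges C := by
    intro e he
    rw [hG, SimpleGraph.edgeSet_fromEdgeSet] at he
    exact he.1
  have h1 : restrict G f ≠ 0 := by
    refine (hf.2 G).2 ⟨C, ?_⟩
    rw [SimpleGraph.isNClique_iff]
    refine ⟨fun v hv w hw hvw => ?_, hC⟩
    rw [hG, SimpleGraph.fromEdgeSet_adj]
    exact ⟨mem_edges.2 ⟨hv, hw, hvw⟩, hvw⟩
  obtain ⟨m, hm⟩ := exists_coeff_ne_zero h1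
  rw [coeff_restrict] at hm
  split_ifs at hm with hmG
  swap
  · exact absurd rfl hm
  refine ⟨m, hm, ?_⟩
  have hd : ∀ e : Sym2 (Fin n), e.IsDiag → m (Sum.inl e) = 0 := by
    intro e he
    by_contra hcon
    have h2 := hGe e (hmG e hcon)
    unfold edges at h2
    exact (mem_filter.1 h2).2 he
  obtain ⟨C', hC', h3⟩ := exists_cliqueY hf hm hd
  have h4 : C' ⊆ C := by
    intro v hv
    obtain ⟨w, hw, hne⟩ := Finset.exists_mem_ne (by omega : 1 < C'.card) v
    have h5 : s(v, w) ∈ edges C' := mem_edges.2 ⟨hv, hw, hne.symm⟩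
    exact (mem_edges.1 (hGe _ (hmG _ (h3 _ h5)))).1
  have h5 : C' = C := Finset.eq_of_subset_of_card_le h4 (by omega)
  subst h5
  ext e
  rw [xp_apply, mon_apply]
  have h6 := le_one hf.1 hm e
  split_ifs with he
  · have := h3 e he
    omega
  · by_contra hcon
    exact he (hGe _ (hmG e hcon))

omit [Fintype Y] in
theorem card_edges_eq {C C' : Finset (Fin n)} (h : C.card = C'.card) : (edges C).card = (edges C').card := by
  classical
  obtain ⟨σ, hσ⟩ : ∃ σ : Equiv.Perm (Fin n), C.map σ.toEmbedding = C' := by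
    exact Equiv.Perm.exists_map_finset_eq C C' h
  rw [← hσ, edges_map, card_map]

/-- the coefficient of a monomial in the edge variables -/
noncomputable def co (f : MvPolynomial (Sym2 (Fin n) ⊕ Y) ℂ) (s : Sym2 (Fin n) →₀ ℕ) : MvPolynomial Y ℂ :=
  open Classical in ∑ m ∈ f.support with xp m = s, monomial (yp m) (coeff m f)

theorem coeff_co (f : MvPolynomial (Sym2 (Fin n) ⊕ Y) ℂ) (m : Sym2 (Fin n) ⊕ Y →₀ ℕ) :
    coeff (yp m) (co f (xp m)) = coeff m f := by
  classical
  unfold co
  rw [coeff_sum]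
  by_cases hm : m ∈ f.support
  · rw [Finset.sum_eq_single m]
    · rw [coeff_monomial, if_pos rfl]
    · intro m' hm' hne
      rw [coeff_monomial, if_neg]
      intro h
      exact hne (xy_inj (mem_filter.1 hm').2 h)
    · intro h
      exact absurd (mem_filter.2 ⟨hm, rfl⟩ : m ∈ f.support.filter fun m' => xp m' = xp m) h
  · rw [notMem_support_iff.1 hm]
    refine Finset.sum_eq_zero fun m' hm' => ?_
    rw [coeff_monomial, if_neg]
    intro h
    have := xy_inj (mem_filter.1 hm').2 h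
    subst this
    exact hm (mem_filter.1 hm').1

theorem co_ne_zero {f : MvPolynomial (Sym2 (Fin n) ⊕ Y) ℂ} {s : Sym2 (Fin n) →₀ ℕ} (h : co f s ≠ 0) :
    ∃ m, coeff m f ≠ 0 ∧ xp m = s := by
  classical
  by_contra hcon
  push Not at hcon
  apply h
  unfold co
  refine Finset.sum_eq_zero fun m hm => ?_
  exact absurd (mem_filter.1 hm).2 (hcon m (mem_support_iff.1 (mem_filter.1 hm).1))

open Classical in
/-- the substitution: edge variables scaled by `t`, auxiliary variables put to `y` -/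
noncomputable def phi (t : ℂ) (y : Y → ℂ) : Sym2 (Fin n) ⊕ Y → MvPolynomial (Sym2 (Fin n)) ℂ :=
  Sum.elim (fun e => if e.IsDiag then 0 else C t * X e) fun i => C (y i)

omit [Fintype Y] in
theorem phi_totalDegree (t : ℂ) (y : Y → ℂ) (i : Sym2 (Fin n) ⊕ Y) : (phi t y i).totalDegree ≤ 1 := by
  unfold phi
  rcases i with e | i
  · simp only [Sum.elim_inl]
    split_ifs
    · simp
    · refine (totalDegree_mul _ _).trans ?_
      rw [totalDegree_C, totalDegree_X]
  · simp

open Classical in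
/-- the coefficients of the substitution -/
theorem coeff_phi (t : ℂ) (y : Y → ℂ) (f : MvPolynomial (Sym2 (Fin n) ⊕ Y) ℂ) (s : Sym2 (Fin n) →₀ ℕ) :
    coeff s (aeval (phi t y) f) =
      if ∀ e : Sym2 (Fin n), e.IsDiag → s e = 0 then t ^ (∑ e, s e) * eval y (co f s) else 0 := by
  have h1 : ∀ m : Sym2 (Fin n) ⊕ Y →₀ ℕ, coeff s (aeval (phi t y) (monomial m (coeff m f))) =
      if xp m = s then (if ∀ e : Sym2 (Fin n), e.IsDiag → s e = 0 then
        t ^ (∑ e, s e) * eval y (monomial (yp m) (coeff m f)) else 0) else 0 := by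
    intro m
    rw [aeval_monomial, Finsupp.prod_fintype _ _ (fun i => pow_zero _), Fintype.prod_sum_type]
    have e1 : ∏ i : Y, phi (n := n) t y (Sum.inr i) ^ m (Sum.inr i) = C (∏ i, y i ^ yp m i) := by
      rw [map_prod]
      refine Finset.prod_congr rfl fun i _ => ?_
      rw [map_pow]
      rfl
    rw [e1]
    by_cases hd : ∀ e : Sym2 (Fin n), e.IsDiag → xp m e = 0
    · have e2 : ∏ e : Sym2 (Fin n), phi t y (Sum.inl e) ^ m (Sum.inl e) =
          monomial (xp m) (t ^ (∑ e, xp m e)) := by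
        rw [monomial_eq, Finsupp.prod_fintype _ _ (fun i => pow_zero _), ← Finset.prod_pow_eq_pow_sum, map_prod,
          ← Finset.prod_mul_distrib]
        refine Finset.prod_congr rfl fun e _ => ?_
        by_cases he : e.IsDiag
        · have := hd e he
          rw [xp_apply] at this
          rw [xp_apply, this, pow_zero, pow_zero, pow_zero, map_one, mul_one]
        · unfold phi
          simp only [Sum.elim_inl, if_neg he, mul_pow, map_pow, xp_apply]
      rw [e2, algebraMap_eq, ← mul_assoc, mul_comm _ (C _), C_mul_monomial, C_mul_monomial, coeff_monomial]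
      split_ifs with h2 h3 h3
      · rw [← h2, eval_monomial, Finsupp.prod_fintype _ _ (fun i => pow_zero _)]
        ring
      · exact absurd (h2 ▸ hd) h3
      · rfl
    · push Not at hd
      obtain ⟨e, he, hme⟩ := hd
      rw [Finset.prod_eq_zero (i := e) (mem_univ _)]
      · rw [zero_mul, mul_zero, coeff_zero]
        split_ifs with h2 h3
        · exact absurd (h3 e he) (h2 ▸ hme)
        all_goals rfl
      · unfold phi
        simp only [Sum.elim_inl, if_pos he]
        exact zero_pow hme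
  conv_lhs => rw [f.as_sum, map_sum, coeff_sum]
  rw [Finset.sum_congr rfl fun m _ => h1 m, ← Finset.sum_filter]
  split_ifs with h
  · unfold co
    rw [map_sum, Finset.mul_sum]
  · exact Finset.sum_const_zero

/-- **The limit.** -/
theorem test_limit (k : ℕ) (hk : 2 ≤ k) (f : MvPolynomial (Sym2 (Fin n) ⊕ Y) ℂ) (hf : IsTest k f) :
    ∃ g : MvPolynomial (Sym2 (Fin n)) ℂ, CliqueSupport k g ∧ ∀ ε : ℝ, 0 < ε →
      ∃ (φ : Sym2 (Fin n) ⊕ Y → MvPolynomial (Sym2 (Fin n)) ℂ) (c : ℂ), (∀ i, (φ i).totalDegree ≤ 1) ∧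
        ∀ s, ‖coeff s (C c * aeval φ f) - coeff s g‖ < ε := by
  classical
  -- the point `y`
  obtain ⟨y, hy⟩ : ∃ y : Y → ℂ, ∀ A ∈ powersetCard k (univ : Finset (Fin n)), eval y (co f (mon A)) ≠ 0 := by
    by_contra hcon
    push Not at hcon
    have h1 : ∏ A ∈ powersetCard k (univ : Finset (Fin n)), co f (mon A) = 0 := by
      refine MvPolynomial.funext fun y => ?_
      obtain ⟨A, hA, h2⟩ := hcon y
      rw [map_prod, Finset.prod_eq_zero hA h2, map_zero]
    obtain ⟨A, hA, h2⟩ := Finset.prod_eq_zero_iff.1 h1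
    obtain ⟨m, hm, hmA⟩ := exists_mono hk hf (mem_powersetCard.1 hA).2
    apply hm
    rw [← coeff_co, hmA, h2, coeff_zero]
  set g : MvPolynomial (Sym2 (Fin n)) ℂ :=
    ∑ A ∈ powersetCard k (univ : Finset (Fin n)), monomial (mon A) (eval y (co f (mon A))) with hg
  have hgc : ∀ A : Finset (Fin n), A.card = k → coeff (mon A) g = eval y (co f (mon A)) := by
    intro A hA
    rw [hg, coeff_sum, Finset.sum_eq_single A]
    · rw [coeff_monomial, if_pos rfl]
    · intro A' hA' hne
      rw [coeff_monomial, if_neg]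
      intro h
      exact hne (mon_inj hk (mem_powersetCard.1 hA').2 hA h)
    · intro h
      exact absurd (mem_powersetCard.2 ⟨subset_univ _, hA⟩) h
  have hg0 : ∀ s, (¬ ∃ A : Finset (Fin n), A.card = k ∧ s = mon A) → coeff s g = 0 := by
    intro s hs
    rw [hg, coeff_sum]
    refine Finset.sum_eq_zero fun A hA => ?_
    rw [coeff_monomial, if_neg]
    rintro rfl
    exact hs ⟨A, (mem_powersetCard.1 hA).2, rfl⟩
  have hsupp : CliqueSupport k g := by
    intro s
    constructor
    · intro h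
      by_contra hcon
      exact h (hg0 s hcon)
    · rintro ⟨A, hA, rfl⟩
      rw [hgc A hA]
      exact hy A (mem_powersetCard.2 ⟨subset_univ _, hA⟩)
  refine ⟨g, hsupp, fun ε hε => ?_⟩
  -- the number of edges of a clique
  obtain ⟨D, hD⟩ : ∃ D : ℕ, ∀ A : Finset (Fin n), A.card = k → (edges A).card = D := by
    by_cases h : ∃ A : Finset (Fin n), A.card = k
    · obtain ⟨A, hA⟩ := h
      exact ⟨(edges A).card, fun A' hA' => card_edges_eq (by omega)⟩
    · exact ⟨0, fun A hA => absurd ⟨A, hA⟩ h⟩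
  set K : ℝ := ∑ s ∈ f.support.image xp, ‖eval y (co f s)‖ with hK
  have hK0 : 0 ≤ K := Finset.sum_nonneg fun _ _ => norm_nonneg _
  have hKs : ∀ s, ‖eval y (co f s)‖ ≤ K := by
    intro s
    by_cases h : s ∈ f.support.image xp
    · exact Finset.single_le_sum (f := fun s => ‖eval y (co f s)‖) (fun _ _ => norm_nonneg _) h
    · have h1 : co f s = 0 := by
        by_contra hcon
        obtain ⟨m, hm, hms⟩ := co_ne_zero hcon
        exact h (mem_image.2 ⟨m, mem_support_iff.2 hm, hms⟩)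
      rw [h1, map_zero, norm_zero]
      exact hK0
  set t : ℝ := min 1 (ε / (2 * (K + 1))) with ht
  have ht0 : 0 < t := lt_min one_pos (by positivity)
  have ht1 : t ≤ 1 := min_le_left _ _
  have htε : t * K < ε := by
    have h1 : t ≤ ε / (2 * (K + 1)) := min_le_right _ _
    calc t * K ≤ ε / (2 * (K + 1)) * K := mul_le_mul_of_nonneg_right h1 hK0
      _ < ε := by
          rw [div_mul_eq_mul_div, div_lt_iff₀ (by positivity)]
          nlinarith
  have htC : (t : ℂ) ≠ 0 := by
    rw [Ne, Complex.ofReal_eq_zero]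
    exact ht0.ne'
  refine ⟨phi t y, ((t : ℂ) ^ D)⁻¹, phi_totalDegree _ _, fun s => ?_⟩
  rw [coeff_C_mul, coeff_phi]
  by_cases hs : ∃ A : Finset (Fin n), A.card = k ∧ s = mon A
  · obtain ⟨A, hA, rfl⟩ := hs
    have e1 : ∀ e : Sym2 (Fin n), e.IsDiag → mon A e = 0 := by
      intro e he
      rw [mon_apply, if_neg]
      intro h
      unfold edges at h
      exact (mem_filter.1 h).2 he
    have e2 : ∑ e, mon A e = D := by
      rw [← hD A hA]
      simp only [mon_apply]
      rw [Finset.sum_ite_mem, Finset.univ_inter, Finset.card_eq_sum_ones]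
    rw [if_pos e1, e2, hgc A hA, ← mul_assoc, inv_mul_cancel₀ (pow_ne_zero _ htC), one_mul, sub_self, norm_zero]
    exact hε
  · rw [hg0 s hs, sub_zero]
    split_ifs with hd
    swap
    · rw [mul_zero, norm_zero]
      exact hε
    by_cases hc : co f s = 0
    · rw [hc, map_zero, mul_zero, mul_zero, norm_zero]
      exact hε
    obtain ⟨m, hm, hms⟩ := co_ne_zero hc
    obtain ⟨A, hA, hAm⟩ := exists_cliqueY hf hm (fun e he => by rw [← xp_apply, hms]; exact hd e he)
    -- the degree is more than `D`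
    have hdeg : D + 1 ≤ ∑ e, s e := by
      have h1 : ∀ e, s e ≤ 1 := fun e => by rw [← hms]; exact le_one hf.1 hm e
      have h2 : ∀ e ∈ edges A, s e = 1 := by
        intro e he
        have h3 := hAm e he
        rw [← xp_apply, hms] at h3
        have := h1 e
        omega
      obtain ⟨e₀, he₀, hne⟩ : ∃ e, e ∉ edges A ∧ s e ≠ 0 := by
        by_contra hcon
        push Not at hcon
        apply hs
        refine ⟨A, hA, ?_⟩
        ext e
        rw [mon_apply]
        split_ifs with he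
        · exact h2 e he
        · exact hcon e he
      calc D + 1 = ∑ e ∈ edges A, s e + 1 := by
            rw [Finset.sum_congr rfl h2, ← Finset.card_eq_sum_ones, hD A hA]
        _ ≤ ∑ e ∈ edges A, s e + s e₀ := by omega
        _ = ∑ e ∈ insert e₀ (edges A), s e := by
            rw [Finset.sum_insert he₀, add_comm]
        _ ≤ ∑ e, s e := Finset.sum_le_sum_of_subset (subset_univ _)
    obtain ⟨d, hd'⟩ := Nat.exists_eq_add_of_le hdeg
    rw [hd', ← mul_assoc, pow_add, pow_succ, ← mul_assoc, ← mul_assoc, inv_mul_cancel₀ (pow_ne_zero _ htC), one_mul,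
      norm_mul, norm_mul, norm_pow, Complex.norm_real, Real.norm_of_nonneg ht0.le]
    calc t * t ^ d * ‖eval y (co f s)‖ ≤ t * 1 * K := by
          refine mul_le_mul (mul_le_mul_of_nonneg_left (pow_le_one₀ ht0.le ht1) ht0.le) (hKs s) (norm_nonneg _)
            (by positivity)
      _ = t * K := by ring
      _ < ε := htε

/-- **Tests and limits.** -/
theorem border_test (k : ℕ) (hk : 2 ≤ k) (f : MvPolynomial (Sym2 (Fin n) ⊕ Y) ℂ) (hf : IsTest k f) :
    ∃ g : MvPolynomial (Sym2 (Fin n)) ℂ, CliqueSupport k g ∧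
      ∀ (Q : MvPolynomial (Sym2 (Fin n) ⊕ Y) ℂ → Prop) (Q' : MvPolynomial (Sym2 (Fin n)) ℂ → Prop) (D₀ : ℕ),
        (∀ P, Q P → P.totalDegree ≤ D₀) →
        (∀ P, Q P → ∀ φ : Sym2 (Fin n) ⊕ Y → MvPolynomial (Sym2 (Fin n)) ℂ, (∀ i, (φ i).totalDegree ≤ 1) →
          ∀ c : ℂ, Q' (C c * aeval φ P)) →
        (∀ ε : ℝ, 0 < ε → ∃ P, Q P ∧ ∀ s, ‖coeff s P - coeff s f‖ < ε) →
        ∀ ε : ℝ, 0 < ε → ∃ P, Q' P ∧ ∀ s, ‖coeff s P - coeff s g‖ < ε := by
  classical
  obtain ⟨g, hg, hlim⟩ := test_limit k hk f hf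
  refine ⟨g, hg, fun Q Q' D₀ hQ hQ' h ε hε => ?_⟩
  obtain ⟨φ, c, hφ, hs⟩ := hlim (ε / 2) (by positivity)
  -- a finite set of monomials
  set D := max D₀ f.totalDegree with hD
  have hfin : {s : Sym2 (Fin n) ⊕ Y →₀ ℕ | (s.sum fun _ e => e) ≤ D}.Finite := by
    have : {s : Sym2 (Fin n) ⊕ Y →₀ ℕ | (s.sum fun _ e => e) ≤ D} ⊆
        ↑(Finset.Iic (Finsupp.equivFunOnFinite.symm fun _ : Sym2 (Fin n) ⊕ Y => D)) := by
      intro s hs
      rw [Finset.mem_coe, Finset.mem_Iic]
      intro q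
      show s q ≤ D
      refine le_trans ?_ hs
      by_cases hq : q ∈ s.support
      · exact Finset.single_le_sum (f := fun q => s q) (fun _ _ => Nat.zero_le _) hq
      · rw [Finsupp.notMem_support_iff.1 hq]; exact Nat.zero_le _
    exact Set.Finite.subset (Finset.finite_toSet _) this
  set κ : Finset (Sym2 (Fin n) ⊕ Y →₀ ℕ) := hfin.toFinset with hκ
  set L : (Sym2 (Fin n) ⊕ Y →₀ ℕ) → MvPolynomial (Sym2 (Fin n)) ℂ :=
    fun m => C c * aeval φ (monomial m (1 : ℂ)) with hL
  have hexp : ∀ P : MvPolynomial (Sym2 (Fin n) ⊕ Y) ℂ, P.totalDegree ≤ D →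
      C c * aeval φ P = ∑ m ∈ κ, C (coeff m P) * L m := by
    intro P hP
    have h1 : P = ∑ m ∈ κ, C (coeff m P) * monomial m (1 : ℂ) := by
      conv_lhs => rw [P.as_sum]
      rw [Finset.sum_subset (s₂ := κ)]
      · refine Finset.sum_congr rfl fun m _ => ?_
        rw [C_mul_monomial, mul_one]
      · intro m hm
        rw [hκ, Set.Finite.mem_toFinset]
        exact (le_totalDegree hm).trans hP
      · intro m _ hm
        rw [notMem_support_iff.1 hm, monomial_zero]
    conv_lhs => rw [h1]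
    rw [map_sum, Finset.mul_sum]
    refine Finset.sum_congr rfl fun m _ => ?_
    have e1 : aeval φ (C (coeff m P) : MvPolynomial (Sym2 (Fin n) ⊕ Y) ℂ) = C (coeff m P) := aeval_C _ _
    rw [map_mul, e1, hL]
    ring
  -- the size of the coefficients
  set K : ℝ := ∑ m ∈ κ, ∑ s ∈ (L m).support, ‖coeff s (L m)‖ with hK
  have hK0 : 0 ≤ K := Finset.sum_nonneg fun _ _ => Finset.sum_nonneg fun _ _ => norm_nonneg _
  have hKs : ∀ s, ∑ m ∈ κ, ‖coeff s (L m)‖ ≤ K := by
    intro s
    refine Finset.sum_le_sum fun m _ => ?_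
    by_cases h : s ∈ (L m).support
    · exact Finset.single_le_sum (f := fun s => ‖coeff s (L m)‖) (fun _ _ => norm_nonneg _) h
    · rw [notMem_support_iff.1 h, norm_zero]
      exact Finset.sum_nonneg fun _ _ => norm_nonneg _
  obtain ⟨P, hP, hPf⟩ := h (ε / (2 * (K + 1))) (by positivity)
  refine ⟨C c * aeval φ P, hQ' P hP φ hφ c, fun s => ?_⟩
  have h1 : coeff s (C c * aeval φ P) - coeff s (C c * aeval φ f) =
      ∑ m ∈ κ, (coeff m P - coeff m f) * coeff s (L m) := by
    rw [hexp P ((hQ P hP).trans (le_max_left _ _)), hexp f (le_max_right _ _), coeff_sum, coeff_sum,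
      ← Finset.sum_sub_distrib]
    refine Finset.sum_congr rfl fun m _ => ?_
    generalize L m = q
    rw [coeff_C_mul, coeff_C_mul]
    ring
  have h2 : ‖coeff s (C c * aeval φ P) - coeff s (C c * aeval φ f)‖ ≤ ε / 2 := by
    rw [h1]
    calc ‖∑ m ∈ κ, (coeff m P - coeff m f) * coeff s (L m)‖
        ≤ ∑ m ∈ κ, ‖(coeff m P - coeff m f) * coeff s (L m)‖ := norm_sum_le _ _
      _ ≤ ∑ m ∈ κ, ε / (2 * (K + 1)) * ‖coeff s (L m)‖ := by
          refine Finset.sum_le_sum fun m _ => ?_
          rw [norm_mul]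
          exact mul_le_mul_of_nonneg_right (hPf m).le (norm_nonneg _)
      _ = ε / (2 * (K + 1)) * ∑ m ∈ κ, ‖coeff s (L m)‖ := by rw [Finset.mul_sum]
      _ ≤ ε / (2 * (K + 1)) * K := mul_le_mul_of_nonneg_left (hKs s) (by positivity)
      _ ≤ ε / 2 := by
          rw [div_mul_eq_mul_div, div_le_div_iff₀ (by positivity) (by positivity)]
          nlinarith
  calc ‖coeff s (C c * aeval φ P) - coeff s g‖
      = ‖(coeff s (C c * aeval φ P) - coeff s (C c * aeval φ f)) +
          (coeff s (C c * aeval φ f) - coeff s g)‖ := by ring_nf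
    _ ≤ ‖coeff s (C c * aeval φ P) - coeff s (C c * aeval φ f)‖ + ‖coeff s (C c * aeval φ f) - coeff s g‖ :=
        norm_add_le _ _
    _ < ε / 2 + ε / 2 := add_lt_add_of_le_of_lt h2 (hs s)
    _ = ε := by ring

end

end CliqueTest
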