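import Pool.Agent.Helper63.Clq.Test
import Pool.Agent.Helper74.Circ.SLP
import Pool.Agent.Helper24.SQ.Pad

/-!
Circuits and determinants of identity tests for cliques, with auxiliary variables; polynomials whose values at the graphs
are nonzero polynomials in the auxiliary variables exactly if there is a `k`-clique.
-/
namespace CliqueTest
open Finset MvPolynomial Clique Circ Pool.Agent.Helper24.SQ

theorem mulRep_mul {σ : Type} [Fintype σ] {P : MvPolynomial σ ℂ} {r : ℕ} (h : MulRep P r) (c : ℂ) :
    MulRep (C c * P) r := by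
  obtain ⟨y, hy, c', α, β, hP⟩ := h
  refine ⟨y, hy, c * c', fun v => c * α v, fun j => c * β j, ?_⟩
  rw [hP]
  simp only [C_mul, mul_add, Finset.mul_sum, mul_assoc]

theorem detRep_mul {σ : Type} [Fintype σ] {P : MvPolynomial σ ℂ} {m : ℕ} (h : DetRep P (m + 1)) (c : ℂ) :
    DetRep (C c * P) (m + 1) := by
  classical
  obtain ⟨A₀, L, hA⟩ := h
  set D : Matrix (Fin (m + 1)) (Fin (m + 1)) ℂ := Matrix.diagonal (Function.update (fun _ => 1) 0 c) with hD
  have hdet : D.det = c := by
    rw [hD, Matrix.det_diagonal, Finset.prod_update_of_mem (mem_univ _)]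
    simp
  refine ⟨D * A₀, fun v => D * L v, fun x => ?_⟩
  rw [map_mul, eval_C, hA, ← hdet, ← Matrix.det_mul]
  congr 1
  rw [mul_add, Finset.mul_sum]
  congr 1
  refine Finset.sum_congr rfl fun v _ => ?_
  rw [Matrix.mul_smul]

variable {n : ℕ} {Y : Type} [Fintype Y]

/-- **Reduction for circuits.** -/
theorem test_circuits (k : ℕ) (hk : 2 ≤ k) (f : MvPolynomial (Sym2 (Fin n) ⊕ Y) ℂ) (hf : IsTest k f) :
    ∃ g : MvPolynomial (Sym2 (Fin n)) ℂ, CliqueSupport k g ∧ ∀ r : ℕ,
      (∀ ε : ℝ, 0 < ε → ∃ P, MulRep P r ∧ ∀ s, ‖coeff s P - coeff s f‖ < ε) →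
        ∀ ε : ℝ, 0 < ε → ∃ P, MulRep P r ∧ ∀ s, ‖coeff s P - coeff s g‖ < ε := by
  obtain ⟨g, hg, h⟩ := border_test k hk f hf
  refine ⟨g, hg, fun r hr => h (fun P => MulRep P r) (fun P => MulRep P r) (2 ^ r) (fun P hP => hP.totalDegree_le) ?_ hr⟩
  intro P hP φ hφ c
  exact mulRep_mul (hP.aeval φ hφ) c

/-- **Reduction for determinants.** -/
theorem test_dets (k : ℕ) (hk : 2 ≤ k) (f : MvPolynomial (Sym2 (Fin n) ⊕ Y) ℂ) (hf : IsTest k f) :
    ∃ g : MvPolynomial (Sym2 (Fin n)) ℂ, CliqueSupport k g ∧ ∀ m : ℕ,
      (∀ ε : ℝ, 0 < ε → ∃ P, DetRep P m ∧ ∀ s, ‖coeff s P - coeff s f‖ < ε) →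
        ∀ ε : ℝ, 0 < ε → ∃ P, DetRep P m ∧ ∀ s, ‖coeff s P - coeff s g‖ < ε := by
  obtain ⟨g, hg, h⟩ := border_test k hk f hf
  refine ⟨g, hg, fun m hm => ?_⟩
  rcases m with _ | m
  · exfalso
    -- the polynomial `f` has constant term `1`
    have h1 : coeff 0 f ≠ 0 := by
      intro h0
      obtain ⟨P, hP, h2⟩ := hm 1 one_pos
      obtain ⟨A₀, L, hA⟩ := hP
      have h3 : coeff 0 P = 1 := by
        have h4 := hA 0
        rw [Matrix.det_isEmpty] at h4
        rw [← h4, eval_zero, constantCoeff_eq]
      have h5 := h2 0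
      rw [h3, h0, sub_zero, norm_one] at h5
      exact lt_irrefl _ h5
    obtain ⟨A, hA, h2⟩ := exists_cliqueY hf (m := 0) h1 (fun e _ => rfl)
    obtain ⟨v, hv⟩ : A.Nonempty := by
      rw [← Finset.card_pos]
      omega
    obtain ⟨w, hw, hne⟩ := Finset.exists_mem_ne (by omega : 1 < A.card) v
    exact h2 s(v, w) (mem_edges.2 ⟨hv, hw, hne.symm⟩) rfl
  · refine h (fun P => DetRep P (m + 1)) (fun P => DetRep P (m + 1)) (m + 1) (fun P hP => hP.totalDegree_le) ?_ hm
    intro P hP φ hφ c
    exact detRep_mul (hP.subst φ hφ) c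

open Classical in
/-- the values at the graphs, as polynomials in the auxiliary variables -/
noncomputable def val (G : SimpleGraph (Fin n)) : MvPolynomial (Sym2 (Fin n) ⊕ Y) ℂ →ₐ[ℂ] MvPolynomial Y ℂ :=
  aeval (Sum.elim (fun e => if e ∈ G.edgeSet then 1 else 0) fun y => X y)

open Classical in
theorem val_monomial (G : SimpleGraph (Fin n)) (m : Sym2 (Fin n) ⊕ Y →₀ ℕ) (c : ℂ) :
    val G (monomial m c) = if ∀ e, m (Sum.inl e) ≠ 0 → e ∈ G.edgeSet then monomial (yp m) c else 0 := by
  unfold val
  rw [aeval_monomial, Finsupp.prod_fintype _ _ (fun i => pow_zero _), Fintype.prod_sum_type]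
  split_ifs with h
  · rw [Finset.prod_eq_one, one_mul, monomial_eq, Finsupp.prod_fintype _ _ (fun i => pow_zero _)]
    · rfl
    · intro e _
      simp only [Sum.elim_inl]
      by_cases he : m (Sum.inl e) = 0
      · rw [he, pow_zero]
      · rw [if_pos (h e he), one_pow]
  · push Not at h
    obtain ⟨e, he, heG⟩ := h
    rw [Finset.prod_eq_zero (i := e) (mem_univ _), zero_mul, mul_zero]
    simp only [Sum.elim_inl]
    rw [if_neg heG, zero_pow he]

theorem val_restrict (G : SimpleGraph (Fin n)) (f : MvPolynomial (Sym2 (Fin n) ⊕ Y) ℂ) :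
    val G (restrict G f) = val G f := by
  classical
  induction f using MvPolynomial.induction_on' with
  | monomial u a =>
    rw [restrict_monomial]
    split_ifs with h
    · rfl
    · rw [map_zero, val_monomial, if_neg h]
  | add p q hp hq => rw [map_add, map_add, hp, hq, map_add]

/-- A polynomial, multilinear in the edge variables, whose value at each graph `G` is a nonzero polynomial in the
auxiliary variables exactly if `G` has a `k`-clique, is a test. -/
theorem isTest_of_values {k : ℕ} (f : MvPolynomial (Sym2 (Fin n) ⊕ Y) ℂ)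
    (hm : ∀ e : Sym2 (Fin n), degreeOf (Sum.inl e) f ≤ 1)
    (hf : ∀ G : SimpleGraph (Fin n), val G f ≠ 0 ↔ ∃ C : Finset (Fin n), G.IsNClique k C) : IsTest k f := by
  classical
  refine ⟨hm, fun G => ⟨fun h => ?_, fun h h0 => ?_⟩⟩
  · -- a minimal monomial
    have hne : (restrict G f).support.Nonempty := MvPolynomial.support_nonempty.2 h
    obtain ⟨s, hs, hmin⟩ := Finset.exists_min_image (restrict G f).support (fun s => (xp s).support.card) hne
    rw [mem_support_iff, coeff_restrict] at hs
    split_ifs at hs with hsG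
    swap
    · exact absurd rfl hs
    set H := SimpleGraph.fromEdgeSet {e : Sym2 (Fin n) | s (Sum.inl e) ≠ 0} with hH
    have hHe : ∀ e, e ∈ H.edgeSet ↔ s (Sum.inl e) ≠ 0 := by
      intro e
      rw [hH, SimpleGraph.edgeSet_fromEdgeSet]
      refine ⟨fun h => h.1, fun h => ⟨h, fun hd => ?_⟩⟩
      exact G.not_isDiag_of_mem_edgeSet (hsG e h) hd
    have hval : coeff (yp s) (val H f) = coeff s f := by
      conv_lhs => rw [f.as_sum, map_sum, coeff_sum]
      rw [Finset.sum_eq_single s]
      · rw [val_monomial, if_pos fun e he => (hHe e).2 he, coeff_monomial, if_pos rfl]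
      · intro t ht hts
        rw [val_monomial]
        split_ifs with htH
        · rw [coeff_monomial, if_neg]
          intro hty
          have hsub : (xp t).support ⊆ (xp s).support := by
            intro e he
            rw [Finsupp.mem_support_iff, xp_apply] at he ⊢
            exact (hHe e).1 (htH e he)
          have h1 : t ∈ (restrict G f).support := by
            rw [mem_support_iff, coeff_restrict, if_pos]
            · exact mem_support_iff.1 ht
            · intro e he
              exact hsG e ((hHe e).1 (htH e he))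
          have h3 : (xp t).support = (xp s).support := Finset.eq_of_subset_of_card_le hsub (hmin t h1)
          apply hts
          refine xy_inj ?_ hty
          ext e
          have h4 := le_one hm (mem_support_iff.1 ht) e
          have h5 := le_one hm hs e
          rw [xp_apply, xp_apply]
          by_cases he : e ∈ (xp s).support
          · have h6 := Finsupp.mem_support_iff.1 he
            rw [← h3] at he
            have h7 := Finsupp.mem_support_iff.1 he
            rw [xp_apply] at h6 h7
            omega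
          · have h6 := Finsupp.notMem_support_iff.1 he
            rw [← h3] at he
            have h7 := Finsupp.notMem_support_iff.1 he
            rw [xp_apply] at h6 h7
            omega
        · rw [coeff_zero]
      · intro ht
        rw [notMem_support_iff.1 ht, monomial_zero, map_zero, coeff_zero]
    have h1 : val H f ≠ 0 := by
      intro h0
      rw [h0, coeff_zero] at hval
      exact hs hval.symm
    obtain ⟨A, hA⟩ := (hf H).1 h1
    refine ⟨A, hA.mono ?_⟩
    intro v w hvw
    exact hsG _ ((hHe s(v, w)).1 hvw)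
  · have h1 := (hf G).2 h
    rw [← val_restrict, h0, map_zero] at h1
    exact h1 rfl

end CliqueTest
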